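import Pool.Agent.Helper93.FD.Main

/-!
# Equidistribution of almost all dilates (MP_35947b_nt)
-/

set_option autoImplicit false

namespace Pool.Agent.Helper93.FD

open Finset Pool.Agent.Helper4.AE

/-- the number of the elements of `B` in the interval `{x, x + 1, ..., x + (L - 1)}` -/
def cnt {m : ℕ} (B : Finset (ZMod m)) (x : ZMod m) (L : ℕ) : ℕ :=
  (B ∩ (range L).image fun i : ℕ => x + (i : ZMod m)).card

variable {m : ℕ} [NeZero m]

theorem FS_dil (u : (ZMod m)ˣ) (A : Finset (ZMod m)) (t : ZMod m) :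
    FS (dil u A) t = FS A ((u : ZMod m) * t) := by
  unfold FS dil
  rw [Finset.sum_image]
  · refine Finset.sum_congr rfl fun x _ => ?_
    congr 1
    ring
  · intro x _ y _ hxy
    exact (Units.mul_right_inj u).mp hxy

theorem card_dil (u : (ZMod m)ˣ) (A : Finset (ZMod m)) : (dil u A).card = A.card := by
  unfold dil
  apply Finset.card_image_of_injective
  intro x y hxy
  exact (Units.mul_right_inj u).mp hxy

theorem sum_split (B S : Finset (ZMod m)) (h : ℕ) :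
    ∑ b ∈ B, (if b ∈ S then h else 0) = h * (B ∩ S).card := by
  rw [← Finset.sum_filter, Finset.sum_const, smul_eq_mul, Finset.filter_mem_eq_inter, mul_comm]

theorem Q_le (h j L : ℕ) (hL : h + j ≤ L + 1) (B : Finset (ZMod m)) (x : ZMod m) :
    Q B (Iv m h) (Iv m j) x ≤ h * cnt B x L := by
  unfold Q cnt
  rw [← sum_split]
  refine Finset.sum_le_sum fun b _ => ?_
  have h1 : ∀ i ∈ Iv m h, (∑ j' ∈ Iv m j, if b = x + i + j' then 1 else 0) ≤
      if b ∈ (range L).image (fun i : ℕ => x + (i : ZMod m)) then 1 else 0 := by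
    intro i hi
    by_cases hex : ∃ j' ∈ Iv m j, b = x + i + j'
    · obtain ⟨j', hj', hb⟩ := hex
      have hmem : b ∈ (range L).image (fun i : ℕ => x + (i : ZMod m)) := by
        unfold Iv at hi hj'
        rw [mem_image] at hi hj' ⊢
        obtain ⟨a, ha, rfl⟩ := hi
        obtain ⟨c, hc, rfl⟩ := hj'
        rw [mem_range] at ha hc
        refine ⟨a + c, ?_, ?_⟩
        · rw [mem_range]; omega
        · rw [hb]; push_cast; ring
      rw [if_pos hmem, ← Finset.sum_filter, Finset.sum_const, smul_eq_mul, mul_one,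
        Finset.card_le_one]
      intro p hp q hq
      rw [mem_filter] at hp hq
      have := hp.2.symm.trans hq.2
      exact add_left_cancel this
    · rw [Finset.sum_eq_zero]
      · exact Nat.zero_le _
      · intro j' hj'
        rw [if_neg fun hb => hex ⟨j', hj', hb⟩]
  refine (Finset.sum_le_sum h1).trans ?_
  rw [Finset.sum_const, smul_eq_mul]
  have h2 : (Iv m h).card ≤ h := by
    unfold Iv
    exact Finset.card_image_le.trans (le_of_eq (card_range h))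
  split_ifs
  · rw [mul_one]; exact h2
  · rw [mul_zero]

theorem Q_ge (h j L : ℕ) (hh1 : 1 ≤ h) (hh : h ≤ m) (hj : L + h ≤ j + 1) (B : Finset (ZMod m))
    (x : ZMod m) : h * cnt B x L ≤ Q B (Iv m h) (Iv m j) (x - ((h - 1 : ℕ) : ZMod m)) := by
  unfold Q cnt
  rw [← sum_split]
  refine Finset.sum_le_sum fun b _ => ?_
  by_cases hmem : b ∈ (range L).image (fun i : ℕ => x + (i : ZMod m))
  · rw [if_pos hmem]
    have h1 : ∀ i ∈ Iv m h, 1 ≤ (∑ j' ∈ Iv m j,
        if b = x - ((h - 1 : ℕ) : ZMod m) + i + j' then 1 else 0) := by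
      intro i hi
      unfold Iv at hi
      rw [mem_image] at hi hmem
      obtain ⟨a, ha, rfl⟩ := hi
      obtain ⟨k, hk, rfl⟩ := hmem
      rw [mem_range] at ha hk
      have hj' : ((k + (h - 1 - a) : ℕ) : ZMod m) ∈ Iv m j := by
        unfold Iv
        rw [mem_image]
        exact ⟨k + (h - 1 - a), by rw [mem_range]; omega, rfl⟩
      refine le_trans ?_ (Finset.single_le_sum (f := fun j' =>
        if x + (k : ZMod m) = x - ((h - 1 : ℕ) : ZMod m) + (a : ZMod m) + j' then 1 else 0)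
        (fun _ _ => Nat.zero_le _) hj')
      show 1 ≤ if x + (k : ZMod m) = x - ((h - 1 : ℕ) : ZMod m) + (a : ZMod m) +
        ((k + (h - 1 - a) : ℕ) : ZMod m) then 1 else 0
      rw [if_pos]
      have : ((h - 1 : ℕ) : ZMod m) = (a : ZMod m) + ((h - 1 - a : ℕ) : ZMod m) := by
        rw [← Nat.cast_add]
        congr 1
        omega
      rw [this]
      push_cast
      ring
    calc h = ∑ i ∈ Iv m h, 1 := by rw [Finset.sum_const, smul_eq_mul, mul_one, card_Iv h hh]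
      _ ≤ _ := Finset.sum_le_sum h1
  · rw [if_neg hmem]
    exact Nat.zero_le _

/-- few dilates have an interval with too few elements -/
theorem lower_ineq (A : Finset (ZMod m)) (r : ℕ) (hA : Bs r A) (L : ℕ) (κ : ℝ) (hL1 : 1 ≤ L)
    (hLm : L ≤ m) (hκ : 0 < κ) (hκ1 : κ ≤ 1) (E : Finset (ZMod m)ˣ)
    (hE : ∀ u ∈ E, ∃ x, (cnt (dil u A) x L : ℝ) * m ≤ (1 - κ) * (L * A.card)) :
    (E.card : ℝ) * (κ ^ 6 * L ^ 4) ≤ 64 * r * m ^ 4 := by
  have hmR : (0 : ℝ) < m := by exact_mod_cast Nat.pos_of_ne_zero (NeZero.ne m)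
  have hLR : (1 : ℝ) ≤ L := by exact_mod_cast hL1
  obtain ⟨h, hh⟩ : ∃ h, h = ⌊κ * L / 2⌋₊ + 1 := ⟨_, rfl⟩
  have hx0 : 0 ≤ κ * L / 2 := by positivity
  have hfl : (⌊κ * L / 2⌋₊ : ℝ) ≤ κ * L / 2 := Nat.floor_le hx0
  have hfl2 : κ * L / 2 < ⌊κ * L / 2⌋₊ + 1 := Nat.lt_floor_add_one _
  have hhR : (h : ℝ) = ⌊κ * L / 2⌋₊ + 1 := by rw [hh]; push_cast; rfl
  have hhL : h ≤ L := by
    have h1 : ⌊κ * L / 2⌋₊ ≤ L / 2 := by
      have : κ * L / 2 ≤ (L : ℝ) / 2 := by nlinarith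
      calc ⌊κ * L / 2⌋₊ ≤ ⌊(L : ℝ) / 2⌋₊ := Nat.floor_le_floor this
        _ = L / 2 := by
          have := Nat.floor_div_eq_div (K := ℝ) L 2
          exact_mod_cast this
    omega
  obtain ⟨j, hj⟩ : ∃ j, j = L + 1 - h := ⟨_, rfl⟩
  have hjL : j ≤ L := by omega
  have hjR : (j : ℝ) = L + 1 - h := by
    rw [hj, Nat.cast_sub (by omega)]
    push_cast
    rfl
  have hA2 : (m : ℝ) ≤ (A.card : ℝ) ^ 2 := by
    exact_mod_cast Pool.Agent.Helper91.AE.hSZ m r A hA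
  have hApos : (0 : ℝ) < A.card := by
    rcases (Nat.cast_nonneg (α := ℝ) A.card).eq_or_lt with h0 | h0
    · rw [← h0] at hA2
      nlinarith
    · exact h0
  have hhpos : (0 : ℝ) < h := by rw [hhR]; positivity
  obtain ⟨D, hD⟩ : ∃ D : ℝ, D = h * A.card * (κ * L / 2) := ⟨_, rfl⟩
  have hD0 : 0 ≤ D := by rw [hD]; positivity
  have key := main_ineq h j (hhL.trans hLm) (hjL.trans hLm) A r hA E D hD0 (by
    intro u hu
    obtain ⟨x, hx⟩ := hE u hu
    have h1 := Q_dev (dil u A) (Iv m h) (Iv m j) x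
    rw [card_dil, card_Iv h (hhL.trans hLm), card_Iv j (hjL.trans hLm)] at h1
    have h2 : (Q (dil u A) (Iv m h) (Iv m j) x : ℝ) ≤ h * cnt (dil u A) x L := by
      exact_mod_cast Q_le h j L (by omega) (dil u A) x
    have h3 : D ≤ |(m : ℝ) * Q (dil u A) (Iv m h) (Iv m j) x - A.card * h * j| := by
      rw [abs_sub_comm]
      refine le_trans ?_ (le_abs_self _)
      have h4 : (m : ℝ) * Q (dil u A) (Iv m h) (Iv m j) x ≤ h * ((1 - κ) * (L * A.card)) := by
        calc (m : ℝ) * Q (dil u A) (Iv m h) (Iv m j) x ≤ m * (h * cnt (dil u A) x L) :=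
              mul_le_mul_of_nonneg_left h2 hmR.le
          _ = h * (cnt (dil u A) x L * m) := by ring
          _ ≤ _ := mul_le_mul_of_nonneg_left hx hhpos.le
      have h5 : D ≤ A.card * h * j - h * ((1 - κ) * (L * A.card)) := by
        have h6 : A.card * h * j - h * ((1 - κ) * (L * A.card)) =
            h * A.card * (κ * L + 1 - h) := by rw [hjR]; ring
        rw [h6, hD]
        apply mul_le_mul_of_nonneg_left _ (by positivity)
        rw [hhR]
        linarith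
      linarith
    refine (h3.trans h1).trans (le_of_eq ?_)
    refine Finset.sum_congr rfl fun t _ => ?_
    rw [FS_dil]
    rfl)
  -- algebra
  have hhge : κ * L / 2 ≤ h := by rw [hhR]; exact hfl2.le
  have hjle : (j : ℝ) ≤ L := by exact_mod_cast hjL
  have hj0 : (0 : ℝ) ≤ j := Nat.cast_nonneg _
  have hk1 : (E.card : ℝ) * D ^ 4 = (h * A.card) ^ 2 * (E.card * ((h : ℝ) ^ 2 * (A.card : ℝ) ^ 2 * (κ * L / 2) ^ 4)) := by
    rw [hD]; ring
  have hk2 : (m : ℝ) ^ 5 * (h * j) ^ 2 * (r * (A.card : ℝ) ^ 2) = (h * A.card) ^ 2 * (m ^ 5 * j ^ 2 * r) := by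
    ring
  rw [hk1, hk2] at key
  have key2 := le_of_mul_le_mul_left key (by positivity)
  have hk3 : (κ * L / 2) ^ 2 * m * (κ * L / 2) ^ 4 ≤ (h : ℝ) ^ 2 * (A.card : ℝ) ^ 2 * (κ * L / 2) ^ 4 := by
    apply mul_le_mul_of_nonneg_right _ (by positivity)
    exact mul_le_mul (pow_le_pow_left₀ hx0 hhge 2) hA2 hmR.le (by positivity)
  have hk4 : (E.card : ℝ) * ((κ * L / 2) ^ 2 * m * (κ * L / 2) ^ 4) ≤ m ^ 5 * L ^ 2 * r := by
    calc (E.card : ℝ) * ((κ * L / 2) ^ 2 * m * (κ * L / 2) ^ 4)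
        ≤ E.card * ((h : ℝ) ^ 2 * (A.card : ℝ) ^ 2 * (κ * L / 2) ^ 4) :=
          mul_le_mul_of_nonneg_left hk3 (Nat.cast_nonneg _)
      _ ≤ m ^ 5 * j ^ 2 * r := key2
      _ ≤ m ^ 5 * L ^ 2 * r := by
        apply mul_le_mul_of_nonneg_right _ (Nat.cast_nonneg _)
        apply mul_le_mul_of_nonneg_left _ (by positivity)
        exact pow_le_pow_left₀ hj0 hjle 2
  have hk5 : (m * L ^ 2 : ℝ) * (E.card * (κ ^ 6 * L ^ 4)) ≤ (m * L ^ 2 : ℝ) * (64 * r * m ^ 4) := by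
    have e1 : (m * L ^ 2 : ℝ) * (E.card * (κ ^ 6 * L ^ 4)) =
        64 * (E.card * ((κ * L / 2) ^ 2 * m * (κ * L / 2) ^ 4)) := by ring
    rw [e1]
    calc _ ≤ 64 * (m ^ 5 * L ^ 2 * r : ℝ) := mul_le_mul_of_nonneg_left hk4 (by norm_num)
      _ = _ := by ring
  exact le_of_mul_le_mul_left hk5 (by positivity)

/-- few dilates have an interval with too many elements -/
theorem upper_ineq (A : Finset (ZMod m)) (r : ℕ) (hA : Bs r A) (L : ℕ) (κ : ℝ) (hL1 : 1 ≤ L)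
    (hLm : 3 * L ≤ 2 * m) (hκ : 0 < κ) (hκ1 : κ ≤ 1) (E : Finset (ZMod m)ˣ)
    (hE : ∀ u ∈ E, ∃ x, (1 + κ) * (L * A.card) ≤ (cnt (dil u A) x L : ℝ) * m) :
    (E.card : ℝ) * (κ ^ 6 * L ^ 4) ≤ 144 * r * m ^ 4 := by
  have hmR : (0 : ℝ) < m := by exact_mod_cast Nat.pos_of_ne_zero (NeZero.ne m)
  have hLR : (1 : ℝ) ≤ L := by exact_mod_cast hL1
  obtain ⟨h, hh⟩ : ∃ h, h = ⌊κ * L / 2⌋₊ + 1 := ⟨_, rfl⟩
  have hx0 : 0 ≤ κ * L / 2 := by positivity
  have hfl : (⌊κ * L / 2⌋₊ : ℝ) ≤ κ * L / 2 := Nat.floor_le hx0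
  have hfl2 : κ * L / 2 < ⌊κ * L / 2⌋₊ + 1 := Nat.lt_floor_add_one _
  have hhR : (h : ℝ) = ⌊κ * L / 2⌋₊ + 1 := by rw [hh]; push_cast; rfl
  have h2h : h - 1 ≤ L / 2 := by
    have h1 : ⌊κ * L / 2⌋₊ ≤ L / 2 := by
      have : κ * L / 2 ≤ (L : ℝ) / 2 := by nlinarith
      calc ⌊κ * L / 2⌋₊ ≤ ⌊(L : ℝ) / 2⌋₊ := Nat.floor_le_floor this
        _ = L / 2 := by
          have := Nat.floor_div_eq_div (K := ℝ) L 2
          exact_mod_cast this
    omega
  have hhL : h ≤ L := by omega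
  have hhm : h ≤ m := by omega
  obtain ⟨j, hj⟩ : ∃ j, j = L + (h - 1) := ⟨_, rfl⟩
  have hjm : j ≤ m := by omega
  have hjR : (j : ℝ) = L + h - 1 := by
    rw [hj, Nat.cast_add, Nat.cast_sub (by omega)]
    push_cast
    ring
  have hA2 : (m : ℝ) ≤ (A.card : ℝ) ^ 2 := by
    exact_mod_cast Pool.Agent.Helper91.AE.hSZ m r A hA
  have hApos : (0 : ℝ) < A.card := by
    rcases (Nat.cast_nonneg (α := ℝ) A.card).eq_or_lt with h0 | h0
    · rw [← h0] at hA2
      nlinarith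
    · exact h0
  have hhpos : (0 : ℝ) < h := by rw [hhR]; positivity
  obtain ⟨D, hD⟩ : ∃ D : ℝ, D = h * A.card * (κ * L / 2) := ⟨_, rfl⟩
  have hD0 : 0 ≤ D := by rw [hD]; positivity
  have key := main_ineq h j hhm hjm A r hA E D hD0 (by
    intro u hu
    obtain ⟨x, hx⟩ := hE u hu
    have h1 := Q_dev (dil u A) (Iv m h) (Iv m j) (x - ((h - 1 : ℕ) : ZMod m))
    rw [card_dil, card_Iv h hhm, card_Iv j hjm] at h1
    have h2 : h * (cnt (dil u A) x L : ℝ) ≤ Q (dil u A) (Iv m h) (Iv m j) (x - ((h - 1 : ℕ) : ZMod m)) := by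
      exact_mod_cast Q_ge h j L (by omega) hhm (by omega) (dil u A) x
    have h3 : D ≤ |(m : ℝ) * Q (dil u A) (Iv m h) (Iv m j) (x - ((h - 1 : ℕ) : ZMod m)) - A.card * h * j| := by
      refine le_trans ?_ (le_abs_self _)
      have h4 : h * ((1 + κ) * (L * A.card)) ≤ (m : ℝ) * Q (dil u A) (Iv m h) (Iv m j) (x - ((h - 1 : ℕ) : ZMod m)) := by
        calc h * ((1 + κ) * (L * A.card)) ≤ h * (cnt (dil u A) x L * m) :=
              mul_le_mul_of_nonneg_left hx hhpos.le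
          _ = m * (h * cnt (dil u A) x L) := by ring
          _ ≤ _ := mul_le_mul_of_nonneg_left h2 hmR.le
      have h5 : D ≤ h * ((1 + κ) * (L * A.card)) - A.card * h * j := by
        have h6 : h * ((1 + κ) * (L * A.card)) - A.card * h * j =
            h * A.card * (κ * L + 1 - h) := by rw [hjR]; ring
        rw [h6, hD]
        apply mul_le_mul_of_nonneg_left _ (by positivity)
        rw [hhR]
        linarith
      linarith
    refine (h3.trans h1).trans (le_of_eq ?_)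
    refine Finset.sum_congr rfl fun t _ => ?_
    rw [FS_dil]
    rfl)
  -- algebra
  have hhge : κ * L / 2 ≤ h := by rw [hhR]; exact hfl2.le
  have hjle : (j : ℝ) ≤ 3 / 2 * L := by
    rw [hjR, hhR]
    nlinarith
  have hj0 : (0 : ℝ) ≤ j := Nat.cast_nonneg _
  have hk1 : (E.card : ℝ) * D ^ 4 = (h * A.card) ^ 2 * (E.card * ((h : ℝ) ^ 2 * (A.card : ℝ) ^ 2 * (κ * L / 2) ^ 4)) := by
    rw [hD]; ring
  have hk2 : (m : ℝ) ^ 5 * (h * j) ^ 2 * (r * (A.card : ℝ) ^ 2) = (h * A.card) ^ 2 * (m ^ 5 * j ^ 2 * r) := by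
    ring
  rw [hk1, hk2] at key
  have key2 := le_of_mul_le_mul_left key (by positivity)
  have hk3 : (κ * L / 2) ^ 2 * m * (κ * L / 2) ^ 4 ≤ (h : ℝ) ^ 2 * (A.card : ℝ) ^ 2 * (κ * L / 2) ^ 4 := by
    apply mul_le_mul_of_nonneg_right _ (by positivity)
    exact mul_le_mul (pow_le_pow_left₀ hx0 hhge 2) hA2 hmR.le (by positivity)
  have hk4 : (E.card : ℝ) * ((κ * L / 2) ^ 2 * m * (κ * L / 2) ^ 4) ≤ m ^ 5 * (3 / 2 * L) ^ 2 * r := by
    calc (E.card : ℝ) * ((κ * L / 2) ^ 2 * m * (κ * L / 2) ^ 4)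
        ≤ E.card * ((h : ℝ) ^ 2 * (A.card : ℝ) ^ 2 * (κ * L / 2) ^ 4) :=
          mul_le_mul_of_nonneg_left hk3 (Nat.cast_nonneg _)
      _ ≤ m ^ 5 * j ^ 2 * r := key2
      _ ≤ m ^ 5 * (3 / 2 * L) ^ 2 * r := by
        apply mul_le_mul_of_nonneg_right _ (Nat.cast_nonneg _)
        apply mul_le_mul_of_nonneg_left _ (by positivity)
        exact pow_le_pow_left₀ hj0 hjle 2
  have hk5 : (m * L ^ 2 : ℝ) * (E.card * (κ ^ 6 * L ^ 4)) ≤ (m * L ^ 2 : ℝ) * (144 * r * m ^ 4) := by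
    have e1 : (m * L ^ 2 : ℝ) * (E.card * (κ ^ 6 * L ^ 4)) =
        64 * (E.card * ((κ * L / 2) ^ 2 * m * (κ * L / 2) ^ 4)) := by ring
    rw [e1]
    calc _ ≤ 64 * (m ^ 5 * (3 / 2 * L) ^ 2 * r : ℝ) := mul_le_mul_of_nonneg_left hk4 (by norm_num)
      _ = _ := by ring
  exact le_of_mul_le_mul_left hk5 (by positivity)

end Pool.Agent.Helper93.FD
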