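import Pool.Agent.Helper4.AE.All

/-!
# Fourier transform modulo `m` (MP_35947b_nt)
-/

set_option autoImplicit false

namespace Pool.Agent.Helper93.FD

open Finset Pool.Agent.Helper4.AE

variable {m : ℕ} [NeZero m]

/-- the character `exp (2 π i x / m)` -/
noncomputable def ex (x : ZMod m) : ℂ := ZMod.stdAddChar x

theorem ex_add (x y : ZMod m) : ex (x + y) = ex x * ex y := AddChar.map_add_eq_mul _ x y

theorem ex_zero : ex (0 : ZMod m) = 1 := AddChar.map_zero_eq_one _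

theorem ex_neg (x : ZMod m) : ex (-x) = (starRingEnd ℂ) (ex x) := AddChar.map_neg_eq_conj _ x

theorem norm_ex (x : ZMod m) : ‖ex x‖ = 1 := by
  unfold ex
  rw [ZMod.stdAddChar_apply]
  exact Circle.norm_coe _

theorem sum_ex (b : ZMod m) : ∑ t, ex (t * b) = if b = 0 then (m : ℂ) else 0 := by
  have h := AddChar.sum_mulShift b (ZMod.isPrimitive_stdAddChar m)
  rw [ZMod.card] at h
  unfold ex
  rw [h]
  split_ifs <;> simp

/-- Fourier transform of a set -/
noncomputable def FS (S : Finset (ZMod m)) (t : ZMod m) : ℂ := ∑ x ∈ S, ex (t * x)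

/-- Fourier transform of a function -/
noncomputable def FF (f : ZMod m → ℝ) (t : ZMod m) : ℂ := ∑ x, (f x : ℂ) * ex (t * x)

theorem parseval (f : ZMod m → ℝ) : ∑ t, ‖FF f t‖ ^ 2 = m * ∑ x, f x ^ 2 := by
  have h : (∑ t, ((‖FF f t‖ ^ 2 : ℝ) : ℂ)) = ((m * ∑ x, f x ^ 2 : ℝ) : ℂ) := by
    have h1 : ∀ t, ((‖FF f t‖ ^ 2 : ℝ) : ℂ) =
        ∑ x, ∑ y, ((f x : ℂ) * (f y : ℂ)) * ex (t * (x - y)) := by
      intro t
      rw [Complex.ofReal_pow, ← Complex.mul_conj']
      unfold FF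
      rw [map_sum, Finset.sum_mul_sum]
      refine Finset.sum_congr rfl fun x _ => Finset.sum_congr rfl fun y _ => ?_
      rw [map_mul, Complex.conj_ofReal, ← ex_neg]
      rw [show t * (x - y) = t * x + -(t * y) by ring, ex_add]
      ring
    simp only [h1]
    rw [Finset.sum_comm]
    have h2 : ∀ x : ZMod m, ∑ t, ∑ y, ((f x : ℂ) * (f y : ℂ)) * ex (t * (x - y)) =
        (m : ℂ) * (f x : ℂ) ^ 2 := by
      intro x
      rw [Finset.sum_comm]
      have h3 : ∀ y : ZMod m, ∑ t, ((f x : ℂ) * (f y : ℂ)) * ex (t * (x - y)) =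
          if y = x then (m : ℂ) * (f x : ℂ) ^ 2 else 0 := by
        intro y
        rw [← Finset.mul_sum, sum_ex]
        by_cases hxy : y = x
        · rw [if_pos hxy, if_pos (by rw [hxy, sub_self]), hxy]
          ring
        · rw [if_neg hxy, if_neg (by rw [sub_eq_zero]; exact fun h => hxy h.symm), mul_zero]
      simp only [h3]
      rw [Finset.sum_ite_eq' Finset.univ x]
      simp
    simp only [h2]
    rw [← Finset.mul_sum]
    push_cast
    rfl
  exact_mod_cast h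

theorem FS_eq_FF (S : Finset (ZMod m)) (t : ZMod m) :
    FS S t = FF (fun x => if x ∈ S then 1 else 0) t := by
  unfold FS FF
  have h : ∀ x : ZMod m, (((if x ∈ S then (1 : ℝ) else 0 : ℝ)) : ℂ) * ex (t * x) =
      if x ∈ S then ex (t * x) else 0 := by
    intro x
    split_ifs <;> simp
  simp only [h]
  rw [Finset.sum_ite_mem, Finset.univ_inter]

theorem parseval_set (S : Finset (ZMod m)) : ∑ t, ‖FS S t‖ ^ 2 = m * S.card := by
  have h := parseval (m := m) (fun x => if x ∈ S then (1 : ℝ) else 0)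
  simp only [FS_eq_FF]
  rw [h]
  congr 1
  simp

theorem FS_sq (A : Finset (ZMod m)) (t : ZMod m) :
    FS A t ^ 2 = FF (fun n => (sg A n : ℝ)) t := by
  unfold FF sg
  have h1 : ∀ n : ZMod m, ((((A ×ˢ A).filter fun p => p.1 + p.2 = n).card : ℝ) : ℂ) * ex (t * n) =
      ∑ p ∈ (A ×ˢ A).filter (fun p => p.1 + p.2 = n), ex (t * (p.1 + p.2)) := by
    intro n
    rw [Finset.sum_congr rfl (g := fun _ => ex (t * n))]
    · rw [Finset.sum_const, nsmul_eq_mul]
      push_cast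
      rfl
    · intro p hp
      rw [(Finset.mem_filter.mp hp).2]
  simp only [h1]
  rw [Finset.sum_fiberwise_of_maps_to (fun _ _ => Finset.mem_univ _)
    (fun p : ZMod m × ZMod m => ex (t * (p.1 + p.2))), Finset.sum_product, sq]
  unfold FS
  rw [Finset.sum_mul_sum]
  refine Finset.sum_congr rfl fun x _ => Finset.sum_congr rfl fun y _ => ?_
  rw [mul_add, ex_add]

/-- the fourth moment -/
theorem fourth (A : Finset (ZMod m)) (r : ℕ) (hA : Bs r A) :
    ∑ t, ‖FS A t‖ ^ 4 ≤ m * (r * (A.card : ℝ) ^ 2) := by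
  have h1 : ∀ t, ‖FS A t‖ ^ 4 = ‖FF (fun n => (sg A n : ℝ)) t‖ ^ 2 := by
    intro t
    rw [← FS_sq, norm_pow]
    ring
  simp only [h1]
  rw [parseval]
  apply mul_le_mul_of_nonneg_left _ (Nat.cast_nonneg _)
  have h2 : ∑ n : ZMod m, (sg A n : ℝ) = (A.card : ℝ) ^ 2 := by
    have h3 : ∑ n : ZMod m, sg A n = (A ×ˢ A).card := by
      unfold sg
      exact (Finset.card_eq_sum_card_fiberwise
        (fun _ _ => Finset.mem_coe.2 (Finset.mem_univ _))).symm
    rw [Finset.card_product] at h3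
    have h4 : ((∑ n : ZMod m, sg A n : ℕ) : ℝ) = ((A.card * A.card : ℕ) : ℝ) := by rw [h3]
    push_cast at h4
    rw [h4]
    ring
  rw [← h2, Finset.mul_sum]
  refine Finset.sum_le_sum fun n _ => ?_
  rw [sq]
  exact mul_le_mul_of_nonneg_right (by exact_mod_cast (hA n).2) (Nat.cast_nonneg _)

/-- the number of `(b, i, j) ∈ B × I × J` with `b = c + i + j` -/
def Q (B I J : Finset (ZMod m)) (c : ZMod m) : ℕ :=
  ∑ b ∈ B, ∑ i ∈ I, ∑ j ∈ J, if b = c + i + j then 1 else 0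

theorem gen3 (B I J : Finset (ZMod m)) (k : ℂ) (F G H : ZMod m → ℂ) :
    k * (∑ b ∈ B, F b) * (∑ i ∈ I, G i) * (∑ j ∈ J, H j) =
      ∑ b ∈ B, ∑ i ∈ I, ∑ j ∈ J, k * F b * G i * H j := by
  obtain ⟨SH, hSH⟩ : ∃ s, s = ∑ j ∈ J, H j := ⟨_, rfl⟩
  obtain ⟨SG, hSG⟩ : ∃ s, s = ∑ i ∈ I, G i := ⟨_, rfl⟩
  rw [← hSH, ← hSG, Finset.mul_sum, Finset.sum_mul, Finset.sum_mul]
  refine Finset.sum_congr rfl fun b _ => ?_
  rw [hSG, Finset.mul_sum, Finset.sum_mul]
  refine Finset.sum_congr rfl fun i _ => ?_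
  rw [hSH, Finset.mul_sum]

theorem comm4 (B I J T : Finset (ZMod m)) (g : ZMod m → ZMod m → ZMod m → ZMod m → ℂ) :
    ∑ t ∈ T, ∑ b ∈ B, ∑ i ∈ I, ∑ j ∈ J, g t b i j =
      ∑ b ∈ B, ∑ i ∈ I, ∑ j ∈ J, ∑ t ∈ T, g t b i j := by
  rw [Finset.sum_comm]
  refine Finset.sum_congr rfl fun b _ => ?_
  rw [Finset.sum_comm]
  refine Finset.sum_congr rfl fun i _ => ?_
  rw [Finset.sum_comm]

theorem Q_fourier (B I J : Finset (ZMod m)) (c : ZMod m) :
    (m : ℂ) * Q B I J c = ∑ t, ex (t * (-c)) * FS B t * (starRingEnd ℂ) (FS I t) *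
      (starRingEnd ℂ) (FS J t) := by
  have h1 : ∀ t : ZMod m, ex (t * (-c)) * FS B t * (starRingEnd ℂ) (FS I t) *
      (starRingEnd ℂ) (FS J t) =
      ∑ b ∈ B, ∑ i ∈ I, ∑ j ∈ J, ex (t * (b - (c + i + j))) := by
    intro t
    unfold FS
    rw [map_sum, map_sum, gen3]
    refine Finset.sum_congr rfl fun b _ => Finset.sum_congr rfl fun i _ =>
      Finset.sum_congr rfl fun j _ => ?_
    rw [← ex_neg, ← ex_neg, ← ex_add, ← ex_add, ← ex_add]
    congr 1
    ring
  simp only [h1]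
  rw [comm4]
  unfold Q
  push_cast
  rw [Finset.mul_sum]
  refine Finset.sum_congr rfl fun b _ => ?_
  rw [Finset.mul_sum]
  refine Finset.sum_congr rfl fun i _ => ?_
  rw [Finset.mul_sum]
  refine Finset.sum_congr rfl fun j _ => ?_
  rw [sum_ex]
  by_cases h : b = c + i + j
  · rw [if_pos h, if_pos (by rw [h, sub_self])]
    ring
  · rw [if_neg h, if_neg (by rw [sub_eq_zero]; exact h)]
    ring

theorem FS_zero (S : Finset (ZMod m)) : FS S 0 = (S.card : ℂ) := by
  unfold FS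
  simp [ex_zero]

/-- deviation of the number of solutions -/
theorem Q_dev (B I J : Finset (ZMod m)) (c : ZMod m) :
    |(m : ℝ) * Q B I J c - B.card * I.card * J.card| ≤
      ∑ t ∈ Finset.univ.erase (0 : ZMod m), ‖FS I t‖ * ‖FS J t‖ * ‖FS B t‖ := by
  have h := Q_fourier B I J c
  rw [← Finset.add_sum_erase Finset.univ _ (Finset.mem_univ (0 : ZMod m))] at h
  rw [zero_mul, ex_zero, FS_zero, FS_zero, FS_zero, one_mul] at h
  have h2 : (((m : ℝ) * Q B I J c - B.card * I.card * J.card : ℝ) : ℂ) =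
      ∑ t ∈ Finset.univ.erase (0 : ZMod m), ex (t * (-c)) * FS B t * (starRingEnd ℂ) (FS I t) *
      (starRingEnd ℂ) (FS J t) := by
    push_cast
    rw [h]
    simp only [Complex.conj_natCast]
    ring
  have h3 := congrArg norm h2
  rw [Complex.norm_real, Real.norm_eq_abs] at h3
  rw [h3]
  refine (norm_sum_le _ _).trans (Finset.sum_le_sum fun t _ => le_of_eq ?_)
  rw [norm_mul, norm_mul, norm_mul, norm_ex, RCLike.norm_conj, RCLike.norm_conj]
  ring

end Pool.Agent.Helper93.FD
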