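import Pool.Agent.Helper93.FD.Unit

/-!
# The main inequality (MP_35947b_nt)
-/

set_option autoImplicit false

namespace Pool.Agent.Helper93.FD

open Finset Pool.Agent.Helper4.AE

theorem holder4 {ι : Type} (T : Finset ι) (w z : ι → ℝ) (hw : ∀ i ∈ T, 0 ≤ w i) :
    (∑ i ∈ T, w i * z i) ^ 4 ≤ (∑ i ∈ T, w i) ^ 3 * ∑ i ∈ T, w i * z i ^ 4 := by
  have h0 : 0 ≤ ∑ i ∈ T, w i := Finset.sum_nonneg hw
  have h1 : (∑ i ∈ T, w i * z i) ^ 2 ≤ (∑ i ∈ T, w i) * ∑ i ∈ T, w i * z i ^ 2 :=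
    Finset.sum_sq_le_sum_mul_sum_of_sq_eq_mul T hw
      (fun i hi => mul_nonneg (hw i hi) (sq_nonneg _)) (fun i _ => by ring)
  have h2 : (∑ i ∈ T, w i * z i ^ 2) ^ 2 ≤ (∑ i ∈ T, w i) * ∑ i ∈ T, w i * z i ^ 4 :=
    Finset.sum_sq_le_sum_mul_sum_of_sq_eq_mul T hw
      (fun i hi => mul_nonneg (hw i hi) (by positivity)) (fun i _ => by ring)
  calc (∑ i ∈ T, w i * z i) ^ 4 = ((∑ i ∈ T, w i * z i) ^ 2) ^ 2 := by ring
    _ ≤ ((∑ i ∈ T, w i) * ∑ i ∈ T, w i * z i ^ 2) ^ 2 := pow_le_pow_left₀ (sq_nonneg _) h1 2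
    _ = (∑ i ∈ T, w i) ^ 2 * (∑ i ∈ T, w i * z i ^ 2) ^ 2 := by ring
    _ ≤ (∑ i ∈ T, w i) ^ 2 * ((∑ i ∈ T, w i) * ∑ i ∈ T, w i * z i ^ 4) :=
        mul_le_mul_of_nonneg_left h2 (sq_nonneg _)
    _ = _ := by ring

variable {m : ℕ} [NeZero m]

/-- the weight -/
noncomputable def wt (m h j : ℕ) [NeZero m] (t : ZMod m) : ℝ := ‖FS (Iv m h) t‖ * ‖FS (Iv m j) t‖

theorem wt_nonneg (h j : ℕ) (t : ZMod m) : 0 ≤ wt m h j t := mul_nonneg (norm_nonneg _) (norm_nonneg _)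

theorem le_of_sq {X h j : ℝ} (hh : 0 ≤ h) (hj : 0 ≤ j) (hX : X ^ 2 ≤ (m * h) * (m * j)) :
    X ≤ m * Real.sqrt (h * j) := by
  apply le_of_abs_le
  apply abs_le_of_sq_le_sq _ (by positivity)
  rw [mul_pow, Real.sq_sqrt (mul_nonneg hh hj)]
  linarith

theorem wt_sum (h j : ℕ) (hh : h ≤ m) (hj : j ≤ m) :
    ∑ t, wt m h j t ≤ m * Real.sqrt (h * j) := by
  apply le_of_sq (Nat.cast_nonneg _) (Nat.cast_nonneg _)
  have h1 := Finset.sum_mul_sq_le_sq_mul_sq (Finset.univ : Finset (ZMod m))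
    (fun t => ‖FS (Iv m h) t‖) (fun t => ‖FS (Iv m j) t‖)
  rw [parseval_set, parseval_set, card_Iv h hh, card_Iv j hj] at h1
  exact h1

theorem wt_unit (h j : ℕ) (hh : h ≤ m) (hj : j ≤ m) (ξ : ZMod m) (hξ : ξ ≠ 0) :
    ∑ u : (ZMod m)ˣ, wt m h j ((u : ZMod m) * ξ) ≤ m * Real.sqrt (h * j) := by
  apply le_of_sq (Nat.cast_nonneg _) (Nat.cast_nonneg _)
  have h1 := Finset.sum_mul_sq_le_sq_mul_sq (Finset.univ : Finset (ZMod m)ˣ)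
    (fun u => ‖FS (Iv m h) ((u : ZMod m) * ξ)‖) (fun u => ‖FS (Iv m j) ((u : ZMod m) * ξ)‖)
  refine h1.trans ?_
  exact mul_le_mul (unit_sum h hh ξ hξ) (unit_sum j hj ξ hξ)
    (Finset.sum_nonneg fun _ _ => sq_nonneg _) (by positivity)

theorem total (h j : ℕ) (hh : h ≤ m) (hj : j ≤ m) (A : Finset (ZMod m)) (r : ℕ) (hA : Bs r A) :
    ∑ u : (ZMod m)ˣ, ∑ t ∈ Finset.univ.erase (0 : ZMod m), wt m h j t * ‖FS A ((u : ZMod m) * t)‖ ^ 4 ≤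
      (m * Real.sqrt (h * j)) * (m * (r * (A.card : ℝ) ^ 2)) := by
  have h1 : ∀ u : (ZMod m)ˣ, ∑ t ∈ Finset.univ.erase (0 : ZMod m),
      wt m h j t * ‖FS A ((u : ZMod m) * t)‖ ^ 4 =
      ∑ ξ ∈ Finset.univ.erase (0 : ZMod m), wt m h j (((u⁻¹ : (ZMod m)ˣ) : ZMod m) * ξ) * ‖FS A ξ‖ ^ 4 := by
    intro u
    refine Finset.sum_nbij' (fun t => (u : ZMod m) * t) (fun ξ => ((u⁻¹ : (ZMod m)ˣ) : ZMod m) * ξ)
      ?_ ?_ ?_ ?_ ?_
    · intro t ht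
      rw [mem_erase] at ht ⊢
      exact ⟨fun h0 => ht.1 ((Units.mul_right_eq_zero u).mp h0), mem_univ _⟩
    · intro t ht
      rw [mem_erase] at ht ⊢
      exact ⟨fun h0 => ht.1 ((Units.mul_right_eq_zero u⁻¹).mp h0), mem_univ _⟩
    · intro t _
      exact Units.inv_mul_cancel_left u t
    · intro t _
      exact Units.mul_inv_cancel_left u t
    · intro t _
      show _ = wt m h j (((u⁻¹ : (ZMod m)ˣ) : ZMod m) * ((u : ZMod m) * t)) * _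
      rw [Units.inv_mul_cancel_left]
  simp only [h1]
  rw [Finset.sum_comm]
  have h2 : ∀ ξ ∈ Finset.univ.erase (0 : ZMod m), ∑ u : (ZMod m)ˣ,
      wt m h j (((u⁻¹ : (ZMod m)ˣ) : ZMod m) * ξ) * ‖FS A ξ‖ ^ 4 ≤
      (m * Real.sqrt (h * j)) * ‖FS A ξ‖ ^ 4 := by
    intro ξ hξ
    rw [mem_erase] at hξ
    rw [← Finset.sum_mul]
    apply mul_le_mul_of_nonneg_right _ (by positivity)
    have h3 : ∑ u : (ZMod m)ˣ, wt m h j (((u⁻¹ : (ZMod m)ˣ) : ZMod m) * ξ) =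
        ∑ u : (ZMod m)ˣ, wt m h j ((u : ZMod m) * ξ) :=
      Equiv.sum_comp (Equiv.inv (ZMod m)ˣ) (fun u : (ZMod m)ˣ => wt m h j ((u : ZMod m) * ξ))
    rw [h3]
    exact wt_unit h j hh hj ξ hξ.1
  refine (Finset.sum_le_sum h2).trans ?_
  rw [← Finset.mul_sum]
  apply mul_le_mul_of_nonneg_left _ (by positivity)
  refine le_trans ?_ (fourth A r hA)
  exact Finset.sum_le_sum_of_subset_of_nonneg (Finset.subset_univ _) fun _ _ _ => by positivity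

theorem main_ineq (h j : ℕ) (hh : h ≤ m) (hj : j ≤ m) (A : Finset (ZMod m)) (r : ℕ) (hA : Bs r A)
    (E : Finset (ZMod m)ˣ) (D : ℝ) (hD : 0 ≤ D)
    (hE : ∀ u ∈ E, D ≤ ∑ t ∈ Finset.univ.erase (0 : ZMod m), wt m h j t * ‖FS A ((u : ZMod m) * t)‖) :
    (E.card : ℝ) * D ^ 4 ≤ (m : ℝ) ^ 5 * (h * j) ^ 2 * (r * (A.card : ℝ) ^ 2) := by
  obtain ⟨s, hs⟩ : ∃ s, s = Real.sqrt ((h : ℝ) * j) := ⟨_, rfl⟩
  have hs0 : 0 ≤ s := by rw [hs]; positivity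
  have hs2 : s ^ 2 = (h : ℝ) * j := by rw [hs, Real.sq_sqrt (by positivity)]
  have hW : ∑ t ∈ Finset.univ.erase (0 : ZMod m), wt m h j t ≤ m * s := by
    rw [hs]
    exact (Finset.sum_le_sum_of_subset_of_nonneg (Finset.subset_univ _)
      fun _ _ _ => wt_nonneg _ _ _).trans (wt_sum h j hh hj)
  have hW0 : 0 ≤ ∑ t ∈ Finset.univ.erase (0 : ZMod m), wt m h j t :=
    Finset.sum_nonneg fun _ _ => wt_nonneg _ _ _
  have h1 : ∀ u ∈ E, D ^ 4 ≤ (m * s) ^ 3 * ∑ t ∈ Finset.univ.erase (0 : ZMod m),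
      wt m h j t * ‖FS A ((u : ZMod m) * t)‖ ^ 4 := by
    intro u hu
    refine (pow_le_pow_left₀ hD (hE u hu) 4).trans ?_
    refine (holder4 _ _ _ fun _ _ => wt_nonneg _ _ _).trans ?_
    apply mul_le_mul_of_nonneg_right (pow_le_pow_left₀ hW0 hW 3)
    exact Finset.sum_nonneg fun _ _ => mul_nonneg (wt_nonneg _ _ _) (by positivity)
  have h2 : ∑ u ∈ E, D ^ 4 ≤ ∑ u ∈ E, (m * s) ^ 3 * ∑ t ∈ Finset.univ.erase (0 : ZMod m),
      wt m h j t * ‖FS A ((u : ZMod m) * t)‖ ^ 4 := Finset.sum_le_sum h1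
  rw [Finset.sum_const, nsmul_eq_mul, ← Finset.mul_sum] at h2
  have h3 : ∑ u ∈ E, ∑ t ∈ Finset.univ.erase (0 : ZMod m),
      wt m h j t * ‖FS A ((u : ZMod m) * t)‖ ^ 4 ≤ (m * s) * (m * (r * (A.card : ℝ) ^ 2)) := by
    rw [hs]
    refine le_trans ?_ (total h j hh hj A r hA)
    exact Finset.sum_le_sum_of_subset_of_nonneg (Finset.subset_univ _)
      fun _ _ _ => Finset.sum_nonneg fun _ _ => mul_nonneg (wt_nonneg _ _ _) (by positivity)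
  have h4 : (m * s) ^ 3 * ((m * s) * (m * (r * (A.card : ℝ) ^ 2))) =
      (m : ℝ) ^ 5 * (h * j) ^ 2 * (r * (A.card : ℝ) ^ 2) := by
    rw [← hs2]
    ring
  rw [← h4]
  exact h2.trans (mul_le_mul_of_nonneg_left h3 (by positivity))

end Pool.Agent.Helper93.FD
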