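import Pool.Agent.Helper93.FD.Four

/-!
# Intervals: the average of the square of the Fourier transform over the units (MP_35947b_nt)
-/

set_option autoImplicit false

namespace Pool.Agent.Helper93.FD

open Finset Pool.Agent.Helper4.AE

theorem tot_le (q : ℕ) : ∀ n : ℕ, Nat.totient (q * n) ≤ q * Nat.totient n := by
  induction q using Nat.recOnMul with
  | zero => intro n; simp
  | one => intro n; simp
  | prime p hp =>
    intro n
    by_cases h : p ∣ n
    · rw [Nat.totient_mul_of_prime_of_dvd hp h]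
    · rw [Nat.totient_mul_of_prime_of_not_dvd hp h]
      exact Nat.mul_le_mul_right _ (Nat.sub_le _ _)
  | mul a b ha hb =>
    intro n
    rw [mul_assoc, mul_assoc]
    exact (ha (b * n)).trans (Nat.mul_le_mul_left a (hb n))

variable {m : ℕ} [NeZero m]

/-- the interval `0, 1, ..., h - 1` modulo `m` -/
def Iv (m h : ℕ) : Finset (ZMod m) := (range h).image fun i : ℕ => (i : ZMod m)

theorem cast_inj (h : ℕ) (hm : h ≤ m) : ∀ x ∈ range h, ∀ y ∈ range h,
    ((x : ℕ) : ZMod m) = (y : ZMod m) → x = y := by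
  intro x hx y hy hxy
  rw [mem_range] at hx hy
  have h1 := (ZMod.natCast_eq_natCast_iff' x y m).mp hxy
  rwa [Nat.mod_eq_of_lt (by omega), Nat.mod_eq_of_lt (by omega)] at h1

theorem card_Iv (h : ℕ) (hm : h ≤ m) : (Iv m h).card = h := by
  unfold Iv
  rw [Finset.card_image_of_injOn, card_range]
  intro x hx y hy hxy
  exact cast_inj h hm x hx y hy hxy

theorem FS_Iv (h : ℕ) (hm : h ≤ m) (t : ZMod m) :
    FS (Iv m h) t = ∑ i ∈ range h, ex (t * (i : ZMod m)) := by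
  unfold FS Iv
  rw [Finset.sum_image]
  intro x hx y hy hxy
  exact cast_inj h hm x hx y hy hxy

theorem sum_range_zmod (n : ℕ) [NeZero n] (f : ZMod n → ℂ) :
    ∑ j ∈ range n, f (j : ZMod n) = ∑ y, f y := by
  refine Finset.sum_nbij' (fun j => (j : ZMod n)) (fun y => y.val) ?_ ?_ ?_ ?_ ?_
  · intro j _
    exact mem_univ _
  · intro y _
    rw [mem_range]
    exact ZMod.val_lt y
  · intro j hj
    rw [mem_range] at hj
    exact ZMod.val_cast_of_lt hj
  · intro y _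
    exact ZMod.natCast_zmod_val y
  · intro j _
    rfl

theorem ex_mul (n q : ℕ) [NeZero n] (hq : n * q = m) (k : ℤ) :
    ex ((((q : ℤ) * k : ℤ)) : ZMod m) = ZMod.stdAddChar (N := n) ((k : ℤ) : ZMod n) := by
  unfold ex
  rw [ZMod.stdAddChar_coe, ZMod.stdAddChar_coe]
  congr 1
  have hn : (n : ℂ) ≠ 0 := by exact_mod_cast NeZero.ne n
  have hq0 : (q : ℂ) ≠ 0 := by
    have hm : m ≠ 0 := NeZero.ne m
    have : q ≠ 0 := by
      rintro rfl
      rw [mul_zero] at hq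
      exact hm hq.symm
    exact_mod_cast this
  have hmc : (m : ℂ) = n * q := by exact_mod_cast hq.symm
  rw [hmc]
  push_cast
  field_simp

/-- the number of congruent pairs -/
def cn (h n : ℕ) : ℕ :=
  ((range h ×ˢ range h).filter fun p => (n : ℤ) ∣ (p.1 : ℤ) - (p.2 : ℤ)).card

theorem sum_sub (h : ℕ) (hm : h ≤ m) (n q : ℕ) [NeZero n] (hq : n * q = m) :
    ∑ j ∈ range n, ‖FS (Iv m h) ((q * j : ℕ) : ZMod m)‖ ^ 2 = n * cn h n := by
  have key : (∑ j ∈ range n, ((‖FS (Iv m h) ((q * j : ℕ) : ZMod m)‖ ^ 2 : ℝ) : ℂ)) =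
      (((n : ℝ) * cn h n : ℝ) : ℂ) := by
    have h1 : ∀ j ∈ range n, ((‖FS (Iv m h) ((q * j : ℕ) : ZMod m)‖ ^ 2 : ℝ) : ℂ) =
        ∑ p ∈ range h ×ˢ range h,
          ZMod.stdAddChar (N := n) ((j : ZMod n) * (((p.1 : ℤ) - (p.2 : ℤ) : ℤ) : ZMod n)) := by
      intro j _
      rw [Complex.ofReal_pow, ← Complex.mul_conj', FS_Iv h hm, map_sum, Finset.sum_mul_sum,
        ← Finset.sum_product']
      refine Finset.sum_congr rfl fun p _ => ?_
      rw [← ex_neg, ← ex_add]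
      have h2 := ex_mul (m := m) n q hq ((j : ℤ) * ((p.1 : ℤ) - (p.2 : ℤ)))
      have h2' : (((j : ℤ) * ((p.1 : ℤ) - (p.2 : ℤ)) : ℤ) : ZMod n) =
          (j : ZMod n) * (((p.1 : ℤ) - (p.2 : ℤ) : ℤ) : ZMod n) := by
        rw [Int.cast_mul, Int.cast_natCast]
      rw [h2'] at h2
      rw [← h2]
      congr 1
      push_cast
      ring
    rw [Finset.sum_congr rfl h1, Finset.sum_comm]
    have h3 : ∀ p ∈ range h ×ˢ range h, ∑ j ∈ range n, ZMod.stdAddChar (N := n)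
        ((j : ZMod n) * (((p.1 : ℤ) - (p.2 : ℤ) : ℤ) : ZMod n)) =
        if (n : ℤ) ∣ (p.1 : ℤ) - (p.2 : ℤ) then (n : ℂ) else 0 := by
      intro p _
      rw [sum_range_zmod n (fun y => ZMod.stdAddChar (N := n)
        (y * (((p.1 : ℤ) - (p.2 : ℤ) : ℤ) : ZMod n)))]
      have h4 := sum_ex (m := n) ((((p.1 : ℤ) - (p.2 : ℤ) : ℤ) : ZMod n))
      unfold ex at h4
      rw [h4]
      have h5 := ZMod.intCast_zmod_eq_zero_iff_dvd ((p.1 : ℤ) - (p.2 : ℤ)) n
      by_cases h6 : (n : ℤ) ∣ (p.1 : ℤ) - (p.2 : ℤ)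
      · rw [if_pos h6, if_pos (h5.mpr h6)]
      · rw [if_neg h6, if_neg (fun h7 => h6 (h5.mp h7))]
    rw [Finset.sum_congr rfl h3, ← Finset.sum_filter, Finset.sum_const, nsmul_eq_mul]
    unfold cn
    push_cast
    ring
  exact_mod_cast key

theorem unit_sum (h : ℕ) (hm : h ≤ m) (ξ : ZMod m) (hξ : ξ ≠ 0) :
    ∑ u : (ZMod m)ˣ, ‖FS (Iv m h) ((u : ZMod m) * ξ)‖ ^ 2 ≤ m * h := by
  obtain ⟨n, hn⟩ : ∃ n, n = addOrderOf ξ := ⟨_, rfl⟩
  have hdvd : n ∣ m := by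
    rw [hn]
    have := addOrderOf_dvd_card (x := ξ)
    rwa [ZMod.card] at this
  obtain ⟨q, hq⟩ := hdvd
  have hm0 : m ≠ 0 := NeZero.ne m
  have hn0 : n ≠ 0 := by
    rintro h0
    rw [h0, zero_mul] at hq
    exact hm0 hq
  haveI : NeZero n := ⟨hn0⟩
  have hn1 : n ≠ 1 := by
    intro h1
    rw [h1] at hn
    exact hξ (AddMonoid.addOrderOf_eq_one_iff.mp hn.symm)
  have hn2 : 2 ≤ n := by omega
  have hU := hUNI m ξ q (fun z => ‖FS (Iv m h) z‖ ^ 2) (by rw [← hn, hq])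
  rw [← hn] at hU
  have hS := sum_sub (m := m) h hm n q hq.symm
  have h0 : ‖FS (Iv m h) ((q * 0 : ℕ) : ZMod m)‖ ^ 2 = (h : ℝ) ^ 2 := by
    rw [mul_zero, Nat.cast_zero, FS_zero, card_Iv h hm]
    simp
  have h1 : ∑ j ∈ (range n).filter (fun j => Nat.Coprime j n),
      ‖FS (Iv m h) ((q * j : ℕ) : ZMod m)‖ ^ 2 ≤
      ∑ j ∈ (range n).erase 0, ‖FS (Iv m h) ((q * j : ℕ) : ZMod m)‖ ^ 2 := by
    apply Finset.sum_le_sum_of_subset_of_nonneg
    · intro j hj
      rw [mem_filter] at hj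
      rw [mem_erase]
      refine ⟨?_, hj.1⟩
      rintro rfl
      have := hj.2
      rw [Nat.coprime_zero_left] at this
      omega
    · intros
      positivity
  have h2 : ∑ j ∈ (range n).erase 0, ‖FS (Iv m h) ((q * j : ℕ) : ZMod m)‖ ^ 2 =
      n * cn h n - (h : ℝ) ^ 2 := by
    rw [← hS, ← Finset.add_sum_erase (range n) _ (mem_range.mpr (by omega : 0 < n)), h0]
    ring
  have h3 : (n : ℝ) * cn h n - (h : ℝ) ^ 2 ≤ n * h := by
    have h4 := (Pool.Agent.Helper60.AE.hCNT n h (by omega)).2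
    have hnR : (0 : ℝ) < n := by exact_mod_cast Nat.pos_of_ne_zero hn0
    have h5 : (n : ℝ) * cn h n ≤ n * ((h : ℝ) ^ 2 / n + h) := mul_le_mul_of_nonneg_left h4 hnR.le
    have h6 : (n : ℝ) * ((h : ℝ) ^ 2 / n + h) = (h : ℝ) ^ 2 + n * h := by
      field_simp
    linarith
  have hφn : (0 : ℝ) < Nat.totient n := by
    exact_mod_cast Nat.totient_pos.mpr (Nat.pos_of_ne_zero hn0)
  have hφm : (Nat.totient m : ℝ) ≤ q * Nat.totient n := by
    have := tot_le q n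
    rw [mul_comm, ← hq] at this
    exact_mod_cast this
  have h7 : (Nat.totient n : ℝ) * ∑ u : (ZMod m)ˣ, ‖FS (Iv m h) ((u : ZMod m) * ξ)‖ ^ 2 ≤
      Nat.totient n * (m * h) := by
    rw [hU]
    have h8 : (∑ j ∈ (range n).filter (fun j => Nat.Coprime j n),
      ‖FS (Iv m h) ((q * j : ℕ) : ZMod m)‖ ^ 2) ≤ n * h := by linarith
    have h9 : (0 : ℝ) ≤ ∑ j ∈ (range n).filter (fun j => Nat.Coprime j n),
      ‖FS (Iv m h) ((q * j : ℕ) : ZMod m)‖ ^ 2 := Finset.sum_nonneg fun _ _ => by positivity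
    have hmR : (m : ℝ) = n * q := by exact_mod_cast hq
    calc _ ≤ (q * Nat.totient n : ℝ) * (n * h) := mul_le_mul hφm h8 h9 (by positivity)
      _ = _ := by rw [hmR]; ring
  exact le_of_mul_le_mul_left h7 hφn

end Pool.Agent.Helper93.FD
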